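import Pool.Agent.W268.Dy.Stm

/-!
# DY-LIM: limit of Galerkin solutions
-/

namespace Pool.Agent.W363.Dy

open Finset Filter Topology
open Pool.Agent.W268.Dy

/-! ### sums over generations -/

theorem gsum_congr {K : ℕ} (n : ℕ) : ∀ (f g : Node K → ℝ), (∀ w, w.length = n → f w = g w) →
    gsum n f = gsum n g := by
  induction n with
  | zero =>
    intro f g h
    exact h [] rfl
  | succ n ih =>
    intro f g h
    refine Finset.sum_congr rfl fun c _ => ih _ _ fun w hw => h (c :: w) ?_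
    rw [List.length_cons, hw]

theorem gsum_nonneg {K : ℕ} (n : ℕ) : ∀ (f : Node K → ℝ), (∀ w, 0 ≤ f w) → 0 ≤ gsum n f := by
  induction n with
  | zero =>
    intro f h
    exact h []
  | succ n ih =>
    intro f h
    exact Finset.sum_nonneg fun c _ => ih _ fun w => h (c :: w)

theorem gsum_tendsto {K : ℕ} (n : ℕ) : ∀ (F : ℕ → Node K → ℝ) (f : Node K → ℝ),
    (∀ w, Tendsto (fun N => F N w) atTop (𝓝 (f w))) →
    Tendsto (fun N => gsum n (F N)) atTop (𝓝 (gsum n f)) := by
  induction n with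
  | zero =>
    intro F f h
    exact h []
  | succ n ih =>
    intro F f h
    exact tendsto_finsetSum _ fun c _ =>
      ih (fun N u => F N (c :: u)) (fun u => f (c :: u)) fun w => h (c :: w)

/-! ### locally uniform convergence with continuous limit -/

/-- locally uniform convergence on `(0,∞)` with continuous limit -/
def LU (F : ℕ → ℝ → ℝ) (f : ℝ → ℝ) : Prop :=
  TendstoLocallyUniformlyOn F f atTop (Set.Ioi 0) ∧ ContinuousOn f (Set.Ioi 0)

theorem LU.const (c : ℝ) : LU (fun _ _ => c) (fun _ => c) := by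
  refine ⟨?_, continuousOn_const⟩
  rw [Metric.tendstoLocallyUniformlyOn_iff]
  intro ε hε x hx
  exact ⟨Set.Ioi 0, self_mem_nhdsWithin, Eventually.of_forall fun _ _ _ => by
    rw [dist_self]; exact hε⟩

theorem LU.add {F G : ℕ → ℝ → ℝ} {f g : ℝ → ℝ} (h1 : LU F f) (h2 : LU G g) :
    LU (fun N t => F N t + G N t) (fun t => f t + g t) :=
  ⟨h1.1.fun_add h2.1, h1.2.add h2.2⟩

theorem LU.sub {F G : ℕ → ℝ → ℝ} {f g : ℝ → ℝ} (h1 : LU F f) (h2 : LU G g) :
    LU (fun N t => F N t - G N t) (fun t => f t - g t) :=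
  ⟨h1.1.fun_sub h2.1, h1.2.sub h2.2⟩

theorem LU.mul {F G : ℕ → ℝ → ℝ} {f g : ℝ → ℝ} (h1 : LU F f) (h2 : LU G g) :
    LU (fun N t => F N t * G N t) (fun t => f t * g t) :=
  ⟨h1.1.fun_mul₀ h2.1 h1.2 h2.2, h1.2.mul h2.2⟩

theorem LU.sum {ι : Type} (s : Finset ι) {F : ι → ℕ → ℝ → ℝ} {f : ι → ℝ → ℝ}
    (h : ∀ i, LU (F i) (f i)) : LU (fun N t => ∑ i ∈ s, F i N t) (fun t => ∑ i ∈ s, f i t) := by
  classical
  induction s using Finset.induction_on with
  | empty => simpa using LU.const 0
  | insert a s ha ih =>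
    simp only [Finset.sum_insert ha]
    exact (h a).add ih

theorem LU.congr {F G : ℕ → ℝ → ℝ} {f g : ℝ → ℝ} (h : LU F f) (hF : ∀ N t, F N t = G N t)
    (hf : ∀ t, f t = g t) : LU G g := by
  have e1 : F = G := by
    funext N t
    exact hF N t
  have e2 : f = g := by
    funext t
    exact hf t
  rw [← e1, ← e2]
  exact h

theorem rhs_LU {K : ℕ} (ν μ q : ℝ) (X : ℕ → ℝ → Node K → ℝ) (Y : ℝ → Node K → ℝ)
    (h : ∀ w, LU (fun N t => X N t w) (fun t => Y t w)) (w : Node K) :
    LU (fun N t => rhs ν μ q (X N t) w) (fun t => rhs ν μ q (Y t) w) := by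
  have h1 : LU (fun N t => ν * μ ^ w.length * X N t w) (fun t => ν * μ ^ w.length * Y t w) :=
    (LU.const (ν * μ ^ w.length)).mul (h w)
  have h2 : LU (fun N t => gain q (X N t) w) (fun t => gain q (Y t) w) := by
    cases w with
    | nil => exact LU.const 0
    | cons c u =>
      refine ((LU.const (q ^ (u.length + 1))).mul ((h u).mul (h u))).congr (fun N t => ?_)
        (fun t => ?_)
      · simp only [gain]; ring
      · simp only [gain]; ring
  have h3 : LU (fun N t => q ^ (w.length + 1) * X N t w * ∑ c : Fin K, X N t (c :: w))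
      (fun t => q ^ (w.length + 1) * Y t w * ∑ c : Fin K, Y t (c :: w)) :=
    ((LU.const (q ^ (w.length + 1))).mul (h w)).mul (LU.sum Finset.univ fun c => h (c :: w))
  refine (((LU.const 0).sub h1).add (h2.sub h3)).congr (fun N t => ?_) (fun t => ?_)
  · simp only [rhs]; ring
  · simp only [rhs]; ring

theorem main : S_en → S_lim := by
  intro hen K ν μ q E u X hν hμ hq hX hX0 hE hC
  -- pointwise limits
  have hlim : ∀ (w : Node K) (t : ℝ), 0 ≤ t → ∃ y, Tendsto (fun N => X N t w) atTop (𝓝 y) := by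
    intro w t ht
    apply cauchySeq_tendsto_of_complete
    rw [Metric.cauchySeq_iff]
    intro ε hε
    obtain ⟨N0, h0⟩ := hC w (t + 1) (by linarith) (ε / 2) (by linarith)
    refine ⟨N0, fun N hN N' hN' => ?_⟩
    rw [Real.dist_eq]
    have := h0 N N' hN hN' t ht (by linarith)
    linarith
  have hlim' : ∀ (w : Node K) (t : ℝ), ∃ y, 0 ≤ t → Tendsto (fun N => X N t w) atTop (𝓝 y) := by
    intro w t
    by_cases ht : 0 ≤ t
    · obtain ⟨y, hy⟩ := hlim w t ht
      exact ⟨y, fun _ => hy⟩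
    · exact ⟨0, fun h => absurd h ht⟩
  choose Y' hY' using hlim'
  set Y : ℝ → Node K → ℝ := fun t w => Y' w t with hYdef
  have hY : ∀ (w : Node K) (t : ℝ), 0 ≤ t → Tendsto (fun N => X N t w) atTop (𝓝 (Y t w)) :=
    fun w t ht => hY' w t ht
  have hTL : ∀ w : Node K, TendstoLocallyUniformlyOn (fun N t => X N t w) (fun t => Y t w) atTop
      (Set.Ici 0) := by
    intro w
    rw [Metric.tendstoLocallyUniformlyOn_iff]
    intro ε hε x hx
    rw [Set.mem_Ici] at hx
    refine ⟨Set.Ici 0 ∩ Set.Iio (x + 1), inter_mem_nhdsWithin _ (Iio_mem_nhds (by linarith)), ?_⟩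
    obtain ⟨N0, h0⟩ := hC w (x + 1) (by linarith) (ε / 2) (by linarith)
    filter_upwards [eventually_ge_atTop N0] with N hN y hy
    obtain ⟨hy0, hy1⟩ := hy
    rw [Set.mem_Ici] at hy0
    rw [Set.mem_Iio] at hy1
    have h1 : Tendsto (fun N' => |X N y w - X N' y w|) atTop (𝓝 |X N y w - Y y w|) :=
      ((hY w y hy0).const_sub (X N y w)).abs
    have h2 : |X N y w - Y y w| ≤ ε / 2 := by
      refine le_of_tendsto h1 ?_
      filter_upwards [eventually_ge_atTop N0] with N' hN'
      exact h0 N N' hN hN' y hy0 hy1.le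
    rw [Real.dist_eq, abs_sub_comm]
    linarith
  have hcont : ∀ w : Node K, ContinuousOn (fun t => Y t w) (Set.Ici 0) := by
    intro w
    exact (hTL w).continuousOn (Frequently.of_forall fun N => (hX N).cont w)
  have hLU : ∀ w : Node K, LU (fun N t => X N t w) (fun t => Y t w) := fun w =>
    ⟨(hTL w).mono Set.Ioi_subset_Ici_self, (hcont w).mono Set.Ioi_subset_Ici_self⟩
  refine ⟨Y, ⟨?_, hcont, ?_, ⟨E, ?_⟩⟩, ?_, hY⟩
  · intro t ht w
    exact ge_of_tendsto' (hY w t ht) fun N => (hX N).nonneg t ht w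
  · intro w t ht
    refine hasDerivAt_of_tendstoLocallyUniformlyOn isOpen_Ioi (rhs_LU ν μ q X Y hLU w).1 ?_
      (fun x hx => hY w x (le_of_lt hx)) (by exact ht : t ∈ Set.Ioi (0 : ℝ))
    filter_upwards [eventually_ge_atTop w.length] with N hN x hx
    exact (hX N).ode w hN x hx
  · intro t ht M
    have h1 : Tendsto (fun N => ∑ n ∈ range M, gsum n (fun w => X N t w ^ 2)) atTop
        (𝓝 (∑ n ∈ range M, gsum n (fun w => Y t w ^ 2))) :=
      tendsto_finsetSum _ fun n _ => gsum_tendsto n _ _ fun w => (hY w t ht).pow 2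
    refine le_of_tendsto h1 ?_
    filter_upwards [eventually_ge_atTop M] with N hN
    have h2 := hen K ν μ q N (X N) hν hμ hq (hX N).toIsPart t ht
    have h3 : 0 ≤ ∫ s in (0:ℝ)..t, ∑ n ∈ range (N + 1), μ ^ n * gsum n (fun w => X N s w ^ 2) :=
      intervalIntegral.integral_nonneg ht fun s _ => Finset.sum_nonneg fun n _ =>
        mul_nonneg (by positivity) (gsum_nonneg n _ fun w => sq_nonneg _)
    have h4 : ∑ n ∈ range (N + 1), gsum n (fun w => X N 0 w ^ 2) =
        ∑ n ∈ range (N + 1), gsum n (fun w => u w ^ 2) := by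
      refine Finset.sum_congr rfl fun n hn => gsum_congr n _ _ fun w hw => ?_
      rw [Finset.mem_range] at hn
      rw [hX0 N w (by omega)]
    have h5 := hE (N + 1)
    have h6 : ∑ n ∈ range M, gsum n (fun w => X N t w ^ 2) ≤
        ∑ n ∈ range (N + 1), gsum n (fun w => X N t w ^ 2) :=
      Finset.sum_le_sum_of_subset_of_nonneg (Finset.range_subset_range.2 (by omega))
        fun n _ _ => gsum_nonneg n _ fun w => sq_nonneg _
    have h7 : 0 ≤ 2 * ν * ∫ s in (0:ℝ)..t, ∑ n ∈ range (N + 1),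
        μ ^ n * gsum n (fun w => X N s w ^ 2) := by positivity
    linarith
  · intro w
    refine tendsto_nhds_unique (hY w 0 le_rfl) (tendsto_const_nhds.congr' ?_)
    filter_upwards [eventually_ge_atTop w.length] with N hN
    exact (hX0 N w hN).symm

end Pool.Agent.W363.Dy
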